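import Mathlib
import Pool.Agent.Lib.MP_18d74f_co.MSMain

/-!
# Motion of primitive coherent configurations with bounded constituent degrees

`IsCoherent`, `IsPrimitive`, `IsAut` are defined in `Pool.Agent.Lib.MP_18d74f_co.Defs`.
-/

set_option autoImplicit false

namespace Pool.Agent.Results.MP_18d74f_co.MotionBound

open Finset Pool.Agent.Lib.MP_18d74f_co

/-- The motion of `c`: the least number of points moved by an automorphism other than the identity,
taken to be the number of points if the identity is the only automorphism. -/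
noncomputable def motion {V : Type} [Fintype V] [DecidableEq V] {r : ℕ} (c : V → V → Fin r) : ℕ :=
  sInf {m : ℕ | (∃ σ : Equiv.Perm V, IsAut c σ ∧ σ ≠ 1 ∧ σ.support.card = m) ∨
    ((∀ σ : Equiv.Perm V, IsAut c σ → σ = 1) ∧ m = Fintype.card V)}

/-- For every `δ` with `0 < δ < 1` and every primitive coherent configuration `c` (of any rank) on
`n ≥ 2` points all of whose off-diagonal constituents have degree at most `δ n`, the motion of `c`
is at least `((1 - δ) / 22) n / log n`. -/
theorem result (δ : ℝ) (hδ0 : 0 < δ) (hδ1 : δ < 1)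
    {V : Type} [Fintype V] [DecidableEq V] {r : ℕ} (c : V → V → Fin r)
    (hc : IsPrimitive c) (hn : 2 ≤ Fintype.card V)
    (hδ : ∀ i : Fin r, (∀ u, c u u ≠ i) → ∀ u,
      ((univ.filter (fun w => c u w = i)).card : ℝ) ≤ δ * (Fintype.card V : ℝ)) :
    (1 - δ) / 22 * ((Fintype.card V : ℝ) / Real.log (Fintype.card V)) ≤ (motion c : ℝ) := by
  have hn' : (2 : ℝ) ≤ Fintype.card V := by exact_mod_cast hn
  have hlog2 : 0.6931471803 < Real.log 2 := Real.log_two_gt_d9
  have hlog : Real.log 2 ≤ Real.log (Fintype.card V) := Real.log_le_log (by norm_num) hn'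
  have hlog0 : 0 < Real.log (Fintype.card V) := by linarith
  have hne : {m : ℕ | (∃ σ : Equiv.Perm V, IsAut c σ ∧ σ ≠ 1 ∧ σ.support.card = m) ∨
      ((∀ σ : Equiv.Perm V, IsAut c σ → σ = 1) ∧ m = Fintype.card V)}.Nonempty := by
    by_cases h : ∀ σ : Equiv.Perm V, IsAut c σ → σ = 1
    · exact ⟨Fintype.card V, Or.inr ⟨h, rfl⟩⟩
    · push Not at h
      obtain ⟨σ, h1, h2⟩ := h
      exact ⟨σ.support.card, Or.inl ⟨σ, h1, h2, rfl⟩⟩
  rw [← mul_div_assoc, div_le_iff₀ hlog0]
  rcases Nat.sInf_mem hne with ⟨σ, h1, h2, h3⟩ | ⟨-, h3⟩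
  · have h4 := MS.support_bound hc hn δ hδ σ h1 h2
    have h5 : (motion c : ℝ) = σ.support.card := by
      exact_mod_cast h3.symm
    rw [h5]
    have h6 : (0 : ℝ) ≤ σ.support.card := Nat.cast_nonneg _
    have h7 : 4 + 16 * Real.log (Fintype.card V) ≤ 22 * Real.log (Fintype.card V) := by linarith
    have h8 := mul_le_mul_of_nonneg_right h7 h6
    linarith
  · have h5 : (motion c : ℝ) = Fintype.card V := by exact_mod_cast h3
    rw [h5]
    have h6 : (1 - δ) / 22 * (Fintype.card V : ℝ) ≤ 0.69 * (Fintype.card V : ℝ) := by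
      refine mul_le_mul_of_nonneg_right ?_ (by linarith)
      linarith
    have h7 : 0.69 * (Fintype.card V : ℝ) ≤ (Fintype.card V : ℝ) * Real.log (Fintype.card V) := by
      rw [mul_comm]
      refine mul_le_mul_of_nonneg_left ?_ (by linarith)
      linarith
    linarith

end Pool.Agent.Results.MP_18d74f_co.MotionBound
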