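import Mathlib
import Pool.Agent.Lib.MP_18d74f_co.Transport

/-!
# Motion of primitive coherent configurations with a transitive abelian group of automorphisms

`IsCoherent`, `IsPrimitive`, `IsAut` are defined in `Pool.Agent.Lib.MP_18d74f_co.Defs`.
-/

set_option autoImplicit false

namespace Pool.Agent.Results.MP_18d74f_co.TranslationSchemes

open Finset Pool.Agent.Lib.MP_18d74f_co

/-- Let `c` be a primitive coherent configuration on `n ≥ 2` points whose off-diagonal constituents
have degree at most `δ n`, with a transitive abelian group `H` of automorphisms. Then every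
automorphism `σ ≠ 1` moves at least `(1 - δ) n / (3 Ω(n))` points, where `Ω(n)` is the number of
prime factors of `n` counted with multiplicity, and hence at least `(1 - δ) (log 2 / 3) n / log n`
points. -/
theorem result {V : Type} [Fintype V] [DecidableEq V] {r : ℕ} (c : V → V → Fin r)
    (hc : IsPrimitive c) (hn : 2 ≤ Fintype.card V) (δ : ℝ)
    (hδ : ∀ i : Fin r, (∀ u, c u u ≠ i) → ∀ u,
      ((univ.filter (fun w => c u w = i)).card : ℝ) ≤ δ * (Fintype.card V : ℝ))
    (H : Subgroup (Equiv.Perm V)) (haut : ∀ h ∈ H, IsAut c h)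
    (hcomm : ∀ g ∈ H, ∀ h ∈ H, g * h = h * g) (htrans : ∀ u v, ∃ h ∈ H, h u = v)
    (σ : Equiv.Perm V) (hσ : IsAut c σ) (hσ1 : σ ≠ 1) :
    (1 - δ) * (Fintype.card V : ℝ) ≤
        3 * ((Fintype.card V).primeFactorsList.length : ℝ) * (σ.support.card : ℝ) ∧
    (1 - δ) * (Real.log 2 / 3) * ((Fintype.card V : ℝ) / Real.log (Fintype.card V)) ≤
        (σ.support.card : ℝ) :=
  main c hc hn δ hδ H haut hcomm htrans σ hσ hσ1

end Pool.Agent.Results.MP_18d74f_co.TranslationSchemes
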